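import Mathlib
import Pool.Agent.R116.AF.AppG

set_option autoImplicit false

namespace Pool.Agent.Results.MP_409a13_co.AffineTriangleGroups

open Filter Topology

/-- `B` is a Steiner system `S(n,q,r)`: its members (the blocks) are `q`-element subsets of `Fin n`,
and every `r`-element subset of `Fin n` is contained in exactly one block. -/
def IsSteiner (n q r : ℕ) (B : Finset (Finset (Fin n))) : Prop :=
  (∀ b ∈ B, b.card = q) ∧ ∀ T : Finset (Fin n), T.card = r → ∃! b, b ∈ B ∧ T ⊆ b

/-- There is a Steiner system `S(k ^ 2 + t, k + t, t + 2)` with two blocks which have exactly `t + 1`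
common points, and with a nilpotent group `G` of automorphisms which fixes the two blocks and each
of their common points and acts regularly on the `(k - 1) ^ 2` points outside the two blocks.
(`t = 0`: affine planes of order `k`; `t = 1`: inversive planes.) -/
def Regular (k t : ℕ) : Prop :=
  ∃ (B : Finset (Finset (Fin (k ^ 2 + t)))) (G : Subgroup (Equiv.Perm (Fin (k ^ 2 + t))))
    (b₁ b₂ : Finset (Fin (k ^ 2 + t))), IsSteiner (k ^ 2 + t) (k + t) (t + 2) B ∧
    Group.IsNilpotent G ∧ (∀ g ∈ G, ∀ b ∈ B, b.image g ∈ B) ∧ b₁ ∈ B ∧ b₂ ∈ B ∧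
    (b₁ ∩ b₂).card = t + 1 ∧ (∀ g ∈ G, b₁.image g = b₁ ∧ b₂.image g = b₂) ∧
    (∀ g ∈ G, ∀ x ∈ b₁ ∩ b₂, g x = x) ∧
    ∀ x y, x ∉ b₁ ∪ b₂ → y ∉ b₁ ∪ b₂ → ∃! g, g ∈ G ∧ g x = y

/-- (1) For every `ε > 0` there is `C` such that for all `X ≥ 3` at most `C X (log X) ^ (ε - 1)`
integers `2 ≤ k ≤ X` are such that, for some `t ≥ 0`, there is a Steiner system
`S(k ^ 2 + t, k + t, t + 2)` with two blocks with `t + 1` common points and a nilpotent group of
automorphisms which fixes the two blocks and their common points and acts regularly on all points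
outside the two blocks.

(2) The number of these integers `k` which are not prime powers and satisfy `k ≡ 1, 2 (mod 4)` is
`o(X / log X)`.

(For `t = 0` all prime powers `k` have this property, with an abelian group, and the number of
prime powers up to `X` is asymptotic to `X / log X`.) -/
theorem result :
    (∀ ε : ℝ, 0 < ε → ∃ C : ℝ, 0 < C ∧ ∀ X : ℕ, 3 ≤ X →
      ({k : ℕ | k ≤ X ∧ 2 ≤ k ∧ ∃ t, Regular k t}.ncard : ℝ) ≤
        C * X * (Real.log X) ^ (ε - 1)) ∧
    Tendsto (fun X : ℕ => ({k : ℕ | k ≤ X ∧ ¬ IsPrimePow k ∧ 2 ≤ k ∧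
      (k % 4 = 1 ∨ k % 4 = 2) ∧ ∃ t, Regular k t}.ncard : ℝ) * Real.log X / X) atTop (𝓝 0) :=
  ⟨Pool.Agent.R116.AF.count_cross, Pool.Agent.R116.AF.sharp_cross⟩

end Pool.Agent.Results.MP_409a13_co.AffineTriangleGroups
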