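import Pool.Agent.R60.Steiner.Final

/-!
# Steiner systems: an exact prime power criterion for the divisibility conditions, and a bound
beyond Tits' inequality

* **Criterion.** The divisibility conditions (D) for `(n, q, r)` hold if and only if, for every
  prime power `P` with a multiple among the integers `q - r + 1, ..., q`, the residue of `n - r`
  modulo `P` is at least the residue of `q - r` modulo `P`. (In particular, in a Steiner system no
  prime power `P` with `q - r < P ≤ q` divides any of the numbers `n - q + 1, ..., n - r`.)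
* **Bound.** Tits' inequality says `n ≥ (r + 1) (q - r + 1)`. If `(q - r)² ≤ q` and
  `lcm(1, ..., q - r) < (r + 1) (q - r)` (for instance, if `q - r` is fixed and `r` is large) then
  every Steiner system `S(n, q, r)` with `n > q` has `n ≥ q (q - r + 1)` points.
* **Small `q - r`.** If `2 ≤ q - r ≤ 16` and `r ≥ 2`, then `n ≥ q (q - r + 1)` for all Steiner
  systems `S(n, q, r)`, `n > q`, but for 16 possible exceptions `(n, q, r)`, among them the three
  Witt designs `S(22, 6, 3)`, `S(23, 7, 4)` and `S(24, 8, 5)`.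

Proof. Let `a = q - r`, `m = n - r`. (D) says that `C(m, a)` divides `C(m, x)` for `a ≤ x ≤ q`, and
the criterion follows from Kummer's theorem. If `m < a (q + 1)`, then `M = ⌊m / a⌋ ≤ q`, and
`m - M a < a`. By the criterion no prime power between `a` and `q` divides `M a`, so that all prime
powers dividing `M a` are at most `a` (if `a² ≤ q`), and `M a` divides `lcm(1, ..., a)`; but
`M ≥ r + 1` by Tits' inequality. For given `a` only finitely many `M` are left, `m` is determined by
`M` since `a + 1` divides `m - a`, and the criterion is evaluated for all of them.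
-/

set_option autoImplicit false
open Finset

namespace Pool.Agent.Results.MP_409a13_co.BeyondTits

/-- `B` is a Steiner system `S(n, q, r)` on the points `Fin n`: its members (blocks) have `q`
elements, and each set of `r` points lies in exactly one block. -/
def IsSteiner (n q r : ℕ) (B : Finset (Finset (Fin n))) : Prop :=
  (∀ b ∈ B, b.card = q) ∧ ∀ s : Finset (Fin n), s.card = r → ∃! b, b ∈ B ∧ s ⊆ b

/-- The divisibility condition (D): for each `i < r` the number `C(n-i, r-i)` is a multiple of
`C(q-i, r-i)`. -/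
def DivCond (n q r : ℕ) : Prop := ∀ i < r, (q - i).choose (r - i) ∣ (n - i).choose (r - i)

/-- The sixteen exceptional triples `(n, q, r)`. -/
def exceptions : List (ℕ × ℕ × ℕ) :=
  [(22, 6, 3), (23, 7, 4), (24, 8, 5), (66, 10, 4), (67, 11, 5), (68, 12, 6), (69, 13, 7),
   (70, 14, 8), (71, 15, 9), (102, 12, 4), (112, 12, 3), (171, 15, 4), (234, 24, 15),
   (235, 25, 16), (236, 26, 17), (326, 20, 4)]

theorem result :
    (∀ n q r : ℕ, r ≤ q → q ≤ n →
      (DivCond n q r ↔ ∀ p e : ℕ, p.Prime → 0 < e → (∃ c, q - r < c ∧ c ≤ q ∧ p ^ e ∣ c) →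
        (q - r) % p ^ e ≤ (n - r) % p ^ e)) ∧
    (∀ n q r : ℕ, 1 ≤ r → r < q → q < n → (∃ B, IsSteiner n q r B) →
      (q - r) ^ 2 ≤ q → (Icc 1 (q - r)).lcm id < (r + 1) * (q - r) → q * (q - r + 1) ≤ n) ∧
    (∀ n q r : ℕ, 2 ≤ r → r + 2 ≤ q → q ≤ r + 16 → q < n → (∃ B, IsSteiner n q r B) →
      q * (q - r + 1) ≤ n ∨ (n, q, r) ∈ exceptions) := by
  refine ⟨fun n q r h1 h2 => Pool.Agent.R60.Steiner.criterion h1 h2, ?_, ?_⟩
  · rintro n q r h1 h2 h3 ⟨B, hB⟩ h4 h5
    have hB' : Pool.Agent.R60.Steiner.IsSteiner n q r B := hB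
    exact Pool.Agent.R60.Steiner.large_bound hB' h1 h2 h3 h4 h5
  · rintro n q r h1 h2 h3 h4 ⟨B, hB⟩
    have hB' : Pool.Agent.R60.Steiner.IsSteiner n q r B := hB
    exact Pool.Agent.R60.Steiner.small_bound hB' h1 h2 h4 (by omega)

end Pool.Agent.Results.MP_409a13_co.BeyondTits
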