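import Pool.Agent.R60.Steiner.Equality

/-!
# The Steiner systems attaining Tits' bound

Tits proved that a Steiner system `S(n, q, r)` with `1 ≤ r < q < n` has at least
`(r + 1) (q - r + 1)` points. Here all parameters with `r ≥ 2` for which the bound can be attained
are determined: then either `q = r + 1` and `r + 2` is a prime number, or `(n, q, r) = (24, 8, 5)`.
So for `q ≥ r + 2` the Witt design `S(24, 8, 5)` is the only Steiner system (up to the design
itself) which attains the bound, and `n ≥ (r + 1) (q - r + 1) + 1` in all other cases.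

Proof. Write `a = q - r`, `b = n - q`, `m = n - r = a + b`. The divisibility conditions (D) say
that `C(m, a)` divides `C(m, x)` for all `x` from `a` to `q`. By Kummer's theorem this is
equivalent to: for each prime power `P` with a multiple in the interval `(a, q]` there is no carry
modulo `P` when `a` and `b` are added, so that `m mod P ≥ a mod P`. In the case of equality
`m = a (r + 1) + 1`, so `a mod P` is `0` or `1` for each prime power `P` dividing `r + 1`, whence
`r + 1` divides `a (a - 1)`. Since `a + 1` divides `b = r a + 1`, it divides `r - 1`, and it follows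
that `r + 1 = a (a - 1)` or `(a, r) = (9, 11)` if `a ≥ 2`. In the first case the condition
`C(a + 2, 2) ∣ C(b, 2)` implies that `a + 2` divides `90`. The nine remaining cases other than
`a = 3`, `r = 5` violate the criterion for a prime `P ≤ 47`.
-/

set_option autoImplicit false
open Finset

namespace Pool.Agent.Results.MP_409a13_co.TitsEquality

/-- `B` is a Steiner system `S(n, q, r)` on the points `Fin n`: its members (blocks) have `q`
elements, and each set of `r` points lies in exactly one block. -/
def IsSteiner (n q r : ℕ) (B : Finset (Finset (Fin n))) : Prop :=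
  (∀ b ∈ B, b.card = q) ∧ ∀ s : Finset (Fin n), s.card = r → ∃! b, b ∈ B ∧ s ⊆ b

/-- Let `2 ≤ r < q < n` and let `S(n, q, r)` exist. Then `n ≥ (r + 1) (q - r + 1)` (Tits), and
equality holds only if `q = r + 1` and `r + 2` is prime, or `(n, q, r) = (24, 8, 5)`. -/
theorem result (n q r : ℕ) (hr : 2 ≤ r) (hrq : r < q) (hqn : q < n)
    (hex : ∃ B : Finset (Finset (Fin n)), IsSteiner n q r B) :
    (r + 1) * (q - r + 1) ≤ n ∧
    (n = (r + 1) * (q - r + 1) →
      (q = r + 1 ∧ (r + 2).Prime) ∨ (n = 24 ∧ q = 8 ∧ r = 5)) := by
  obtain ⟨B, hB⟩ := hex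
  have hB' : Pool.Agent.R60.Steiner.IsSteiner n q r B := hB
  refine ⟨Pool.Agent.R60.Steiner.tits hB' (by omega) hrq.le hqn, fun hn => ?_⟩
  have hD := Pool.Agent.R60.Steiner.divCond_of_isSteiner (by omega) hB'
  rw [Pool.Agent.R60.Steiner.divCond_iff_red hrq.le hqn.le] at hD
  obtain ⟨a, rfl⟩ : ∃ a, q = r + a := ⟨q - r, by omega⟩
  have e1 : r + a - r = a := by omega
  have e2 : n - (r + a) = r * a + 1 := by
    rw [hn, e1]
    have : (r + 1) * (a + 1) = r * a + 1 + (r + a) := by ring
    omega
  rw [e1, e2] at hD
  rcases Pool.Agent.R60.Steiner.arith (by omega) hr hD with ⟨h1, h2⟩ | ⟨h1, h2⟩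
  · left; exact ⟨by omega, h2⟩
  · right
    subst h1 h2
    rw [e1] at hn
    exact ⟨by omega, by omega, rfl⟩

end Pool.Agent.Results.MP_409a13_co.TitsEquality
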